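import Pool.Agent.Y408.BA.Draw

set_option autoImplicit false

namespace Pool.Agent.Results.MP_9caa86_co.PolyLineArea

/-- `Ap n`, the maximum over all `n`-vertex upward planar bipartite DAGs of the minimum area of a
poly-line upward planar grid drawing, is at least `n ^ 2 / 64` for every `n ≥ 28`. -/
theorem result : ∀ n : ℕ, 28 ≤ n → n ^ 2 ≤ 64 * Pool.Agent.Y408.BA.Ap n :=
  Pool.Agent.Y408.BA.main

end Pool.Agent.Results.MP_9caa86_co.PolyLineArea
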